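import Pool.Agent.Run7.h888.SD.ZCL
import Pool.Agent.Run7.h47.SD.Iface2

/-! Piece CLO of project SD, stage 2 (helper47, MP_1906c1_mp): Cayley images of closed sets of
symbols are closed (helper216, generalization of the proof of ZCL of helper888). -/

set_option autoImplicit false

namespace Pool.Agent.Run7.h216.SD

open MeasureTheory Filter Pool.Agent.W792.LL Pool.Agent.W792.WA Pool.Agent.N659.HB
open Pool.Agent.Run7.h47.SD Pool.Agent.Run7.h888.SD
open ProbabilityTheory UnitAddTorus
open scoped Topology ENNReal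

noncomputable section

theorem t_CLO : S_CLO := by
  intro d P R η hη hP hPb
  have hM0 : ∀ S ∈ P, 0 < R + 1 := by
    intro S hS
    have := (norm_nonneg _).trans (hPb S hS 0).1
    linarith
  set M : ℝ := R + 1 with hM
  have him : ∀ S ∈ P, ∀ k, (S k).im ≤ -η := fun S hS k => (hPb S hS k).2
  have hSM : ∀ S ∈ P, ∀ k, ‖S k - Complex.I‖ ≤ M := by
    intro S hS k
    refine (norm_sub_le _ _).trans ?_
    rw [Complex.norm_I]
    have := (hPb S hS k).1
    linarith
  set g : ℝ := 2 * η / M ^ 2 with hg
  have hbound : ∀ s ∈ cyi P, ∀ k, ‖s k‖ ≤ 1 - g := by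
    rintro s ⟨S, hS, hsS⟩ k
    rw [hsS k]
    exact cay_norm hη (him S hS k) (hSM S hS k)
  refine ⟨?_, ?_⟩
  · apply IsSeqClosed.isClosed
    intro sn s hsn hlim
    have hM1 : 0 < M := by
      obtain ⟨S, hS, -⟩ := hsn 0
      exact hM0 S hS
    have hg0 : 0 < g := by positivity
    have hk : ∀ k, Tendsto (fun n => sn n k) atTop (𝓝 (s k)) := by
      intro k
      exact ((continuous_eval_const (F := C(UnitAddTorus (Fin d), ℂ)) k).tendsto s).comp hlim
    have hsk : ∀ k, ‖s k‖ ≤ 1 - g := fun k =>
      le_of_tendsto' (hk k).norm fun n => hbound (sn n) (hsn n) k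
    have hne : ∀ z : ℂ, ‖z‖ ≤ 1 - g → g ≤ ‖z - 1‖ := by
      intro z hz
      have h1 := norm_sub_norm_le (1 : ℂ) z
      rw [norm_one, norm_sub_rev] at h1
      linarith
    have hsk1 : ∀ k, s k - 1 ≠ 0 := by
      intro k h
      have := hne (s k) (hsk k)
      rw [h, norm_zero] at this
      linarith
    choose Sn hSn hSn2 using hsn
    set S : C(UnitAddTorus (Fin d), ℂ) := ⟨fun k => Complex.I * (s k + 1) / (s k - 1), by
      have h1 := s.continuous
      exact (continuous_const.mul (h1.add continuous_const)).div (h1.sub continuous_const) hsk1⟩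
      with hSdef
    have hSk : ∀ k, S k = Complex.I * (s k + 1) / (s k - 1) := fun k => rfl
    have hdiff : ∀ n k, ‖Sn n k - S k‖ ≤ 2 / g ^ 2 * ‖sn n - s‖ := by
      intro n k
      have h1 := (cay_inv (lt_of_le_of_lt (him _ (hSn n) k) (by linarith))).2
      rw [← hSn2 n k] at h1
      have h2 : sn n k - 1 ≠ 0 := by
        intro h
        have := hne (sn n k) (hbound (sn n) ⟨Sn n, hSn n, hSn2 n⟩ k)
        rw [h, norm_zero] at this
        linarith
      have h3 := hsk1 k
      have h4 : Sn n k - S k = Complex.I * (-2) * (sn n k - s k) / ((sn n k - 1) * (s k - 1)) := by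
        rw [h1, hSk]
        field_simp
        ring
      rw [h4, norm_div, norm_mul, norm_mul, norm_mul, Complex.norm_I, norm_neg]
      have h5 := hne (sn n k) (hbound (sn n) ⟨Sn n, hSn n, hSn2 n⟩ k)
      have h6 := hne (s k) (hsk k)
      have h7 : ‖sn n k - s k‖ ≤ ‖sn n - s‖ := (sn n - s).norm_coe_le_norm k
      have h8 : ‖(2 : ℂ)‖ = 2 := by simp
      rw [h8, one_mul, div_mul_eq_mul_div]
      apply div_le_div₀ (by positivity) _ (by positivity)
      · rw [sq]
        exact mul_le_mul h5 h6 hg0.le (norm_nonneg _)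
      · exact mul_le_mul_of_nonneg_left h7 (by norm_num)
    have hSlim : Tendsto Sn atTop (𝓝 S) := by
      rw [tendsto_iff_norm_sub_tendsto_zero]
      have h1 : Tendsto (fun n => 2 / g ^ 2 * ‖sn n - s‖) atTop (𝓝 0) := by
        have := (tendsto_iff_norm_sub_tendsto_zero.mp hlim).const_mul (2 / g ^ 2)
        simpa using this
      refine squeeze_zero (fun n => norm_nonneg _) (fun n => ?_) h1
      rw [ContinuousMap.norm_le _ (by positivity)]
      intro k
      exact hdiff n k
    refine ⟨S, hP.isSeqClosed hSn hSlim, fun k => ?_⟩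
    have h3 := hsk1 k
    unfold cayx
    rw [hSk]
    have h4 : Complex.I * (s k + 1) / (s k - 1) + ((0 : ℝ) : ℂ) + Complex.I
        = 2 * Complex.I * s k / (s k - 1) := by
      push_cast
      field_simp
      ring
    have h5 : Complex.I * (s k + 1) / (s k - 1) + ((0 : ℝ) : ℂ) - Complex.I
        = 2 * Complex.I / (s k - 1) := by
      push_cast
      field_simp
      ring
    rw [h4, h5]
    field_simp
  · intro s hs
    rw [ContinuousMap.norm_le_of_nonempty]
    exact hbound s hs

end

end Pool.Agent.Run7.h216.SD
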