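import Pool.Agent.Run7.h47.SD.Fink
import Pool.Agent.Run7.h47.SD.Iface2
import Pool.Agent.W335.LLCay

/-! Piece FINB of project SD, stage 2 (helper47, MP_1906c1_mp): the theorem in the bulk, for every
kinetic energy in the Wiener algebra (helper216, after `t_FINK` of helper47). -/

set_option autoImplicit false

namespace Pool.Agent.Run7.h216.SD

open MeasureTheory Filter Pool.Agent.W792.LL Pool.Agent.W792.WA Pool.Agent.N659.HB
open Pool.Agent.Run7.h47.SD
open ProbabilityTheory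
open scoped Topology ENNReal

noncomputable section

/-- The scaled symbol, shifted to the energy. -/
theorem kz_eq2 {d : ℕ} (K : C(UnitAddTorus (Fin d), ℝ)) (γ a lam e : ℝ) (z : ℂ)
    (he : e = z.re - γ * a) :
    (toC (fun k => (lam : ℂ) * (((((γ • (K - ContinuousMap.const _ (-a)) :
      C(UnitAddTorus (Fin d), ℝ)) k : ℝ) : ℂ) - z) + e)) : C(UnitAddTorus (Fin d), ℂ)) =
      ((lam * γ : ℝ) : ℂ) • cR K + ct d (-((lam * z.im : ℝ) : ℂ) * Complex.I) := by
  have hc : Continuous fun k => (K k : ℂ) := Complex.continuous_ofReal.comp K.continuous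
  have hc2 : Continuous (fun k =>
      (lam : ℂ) * (((((γ • (K - ContinuousMap.const _ (-a)) : C(UnitAddTorus (Fin d), ℝ)) k : ℝ) :
        ℂ) - z) + e)) := by
    fun_prop
  unfold cR toC
  rw [dif_pos hc2, dif_pos hc]
  ext k
  simp only [ContinuousMap.coe_mk, ContinuousMap.add_apply, ContinuousMap.smul_apply,
    ContinuousMap.sub_apply, ContinuousMap.const_apply, ct, smul_eq_mul]
  have hz : z = (z.re : ℂ) + (z.im : ℂ) * Complex.I := (Complex.re_add_im z).symm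
  rw [he]
  conv_lhs => rw [hz]
  push_cast
  simp only [Complex.add_re, Complex.ofReal_re, Complex.mul_re, Complex.I_re, mul_zero,
    Complex.ofReal_im, Complex.I_im, mul_one, sub_self, add_zero]
  ring

theorem wn_kz2 (hWA : S_WAL) {d : ℕ} {K : C(UnitAddTorus (Fin d), ℝ)} {B γ a lam e : ℝ}
    (hγ : 0 < γ) (hlam : 0 < lam) (hKB : Wn (cR K) B) {z : ℂ} (he : e = z.re - γ * a)
    (hz : 0 < z.im) (hz2 : lam * z.im ≤ 1) :
    Wn (toC (fun k => (lam : ℂ) * (((((γ • (K - ContinuousMap.const _ (-a)) :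
      C(UnitAddTorus (Fin d), ℝ)) k : ℝ) : ℂ) - z) + e)) : C(UnitAddTorus (Fin d), ℂ))
      (lam * γ * B + 1) := by
  obtain ⟨w1, w2, w3, -⟩ := hWA d
  rw [kz_eq2 K γ a lam e z he]
  have h := w3 _ _ _ _ (w2 _ ((lam * γ : ℝ) : ℂ) _ hKB) (w1 (-((lam * z.im : ℝ) : ℂ) * Complex.I))
  intro F
  refine (h F).trans ?_
  rw [Complex.norm_real, Real.norm_of_nonneg (by positivity), norm_mul, norm_neg, Complex.norm_real,
    Real.norm_of_nonneg (by positivity), Complex.norm_I, mul_one]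
  linarith

theorem t_FINB (hWA : S_WAL) (hG : S_GAPB) (hC : S_CHK) (hAe : S_AEQK) (hAf : S_AFF) (hW : S_WS)
    (hψ : ∃ ψ : C(UnitAddCircle, ℝ), IsSemi ψ ∧ ∀ d : ℕ, 0 < d → ∃ C : ℝ, 0 < C ∧
      ∀ (M : ℕ) (x : Fin d → ℤ),
      ‖UnitAddTorus.mFourierCoeff (fun k : UnitAddTorus (Fin d) =>
        ((ψ ((M * lap d k / (2 * Real.pi) : ℝ) : UnitAddCircle) : ℝ) : ℂ)) x‖
        ≤ C / (1 + ‖x‖) ^ ((d : ℝ) / 3)) : S_FINB := by
  intro ν₀ _ T hT hat hAdm
  obtain ⟨C₀, C₁, hC₀, hC₁, hML⟩ := hAdm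
  obtain ⟨κ, hκ, hgap⟩ := hG C₁ hC₁
  obtain ⟨ψ, hψ1, hψ2⟩ := hψ
  refine ⟨2 * C₀ / κ, by positivity, ?_⟩
  intro d K B sg ε hd hKB hsg hCB hε
  have hB0 : 0 ≤ B := by simpa using hKB ∅
  have hd1 : (1 : ℝ) ≤ d := by exact_mod_cast hd
  have hd0 : (0 : ℝ) < d := by linarith
  obtain ⟨Cd, hCd, hCd1⟩ := hψ2 d hd
  obtain ⟨M, hM1, hM2⟩ : ∃ M : ℝ, 1 ≤ M ∧ 6 * C₀ / κ ≤ M :=
    ⟨max 1 (6 * C₀ / κ), le_max_left _ _, le_max_right _ _⟩
  have hM0 : 0 < M := by linarith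
  obtain ⟨a, haT⟩ : ∃ a : ℝ, a = T * sg := ⟨_, rfl⟩
  have ha : 0 < a := by rw [haT]; positivity
  obtain ⟨γ, hγd⟩ : ∃ γ : ℝ, γ = 2 * d / a := ⟨_, rfl⟩
  have hγ : 0 < γ := by rw [hγd]; positivity
  have hγa : γ * a = 2 * d := by rw [hγd]; field_simp
  obtain ⟨lam, hlamd⟩ : ∃ lam : ℝ, lam = M / (γ * sg) := ⟨_, rfl⟩
  have hlam : 0 < lam := by rw [hlamd]; positivity
  have hlam1 : lam * (γ * sg) = M := by rw [hlamd]; field_simp
  have hlam2 : lam * (2 * d) = T * M := by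
    rw [← hγa, haT, ← hlam1]
    ring
  obtain ⟨l, hl0, hl1, hl2, hl3⟩ := lex hε hCd (mul_pos hlam hγ)
  have hm2 : Measurable fun x : ℝ => (γ * sg) * x := by fun_prop
  have hP2 : IsProbabilityMeasure (ν₀.map fun x => (γ * sg) * x) :=
    Measure.isProbabilityMeasure_map hm2.aemeasurable
  have hgs : 0 < γ * sg := by positivity
  have hvr : 0 < vr (ν₀.map fun x => (γ * sg) * x) := by
    refine Ch.vr_pos Pool.Agent.W335.LLCay.main _ fun b => ?_
    rw [Measure.map_apply hm2 (measurableSet_singleton b)]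
    have : (fun x => (γ * sg) * x) ⁻¹' {b} = {b / (γ * sg)} := by
      ext x
      simp only [Set.mem_preimage, Set.mem_singleton_iff]
      rw [eq_div_iff hgs.ne', mul_comm]
    rw [this]
    exact hat _
  have hsmall : C₀ / M * (lam * γ * B + 1 + 2) ≤ κ := by
    have h1 : lam * γ * B = M * (B / sg) := by
      rw [← hlam1]
      field_simp
    have h2 : C₀ / M * (lam * γ * B + 1 + 2) = C₀ * (B / sg) + 3 * C₀ / M := by
      rw [h1]
      field_simp
      ring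
    have h3 : C₀ * (B / sg) ≤ κ / 2 := by
      rw [← mul_div_assoc, div_le_iff₀ hsg]
      have h4 : κ / 2 * (2 * C₀ / κ * B) ≤ κ / 2 * sg :=
        mul_le_mul_of_nonneg_left hCB (by positivity)
      have h5 : κ / 2 * (2 * C₀ / κ * B) = C₀ * B := by field_simp
      linarith
    have h4 : 3 * C₀ / M ≤ κ / 2 := by
      rw [div_le_iff₀ hM0]
      rw [div_le_iff₀ hκ] at hM2
      linarith
    rw [h2]
    linarith
  have hzz : ∀ z ∈ Zs d, z.im ≤ 1 / lam → ∃ e : ℝ, |e| ≤ 2 * d ∧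
      ML ((ν₀.map fun x => (γ * sg) * x).map fun v => lam * (v - e)) (C₀ / M) C₁ ∧
      Wn (toC (fun k => (lam : ℂ) * (((((γ • (K - ContinuousMap.const _ (-a)) :
        C(UnitAddTorus (Fin d), ℝ)) k : ℝ) : ℂ) - z) + e)) : C(UnitAddTorus (Fin d), ℂ))
        (lam * γ * B + 1) := by
    rintro z ⟨hz1, hz2, hz3, hz4⟩ hzi
    refine ⟨z.re - γ * a, ?_, ?_, ?_⟩
    · rw [hγa, abs_le]
      constructor <;> linarith
    · rw [Measure.map_map (by fun_prop) hm2]
      have h1 : ((fun v : ℝ => lam * (v - (z.re - γ * a))) ∘ fun x : ℝ => (γ * sg) * x) =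
          fun x : ℝ => M * x - lam * (z.re - γ * a) := by
        funext x
        simp only [Function.comp_apply]
        rw [← hlam1]
        ring
      rw [h1]
      refine hML M (lam * (z.re - γ * a)) hM1 ?_
      rw [abs_mul, abs_of_pos hlam, ← hlam2]
      refine mul_le_mul_of_nonneg_left ?_ hlam.le
      rw [hγa, abs_le]
      constructor <;> linarith
    · refine wn_kz2 hWA hγ hlam hKB rfl hz3 ?_
      rw [le_div_iff₀ hlam] at hzi
      linarith
  obtain ⟨g, hg, hgap1⟩ := hgap ψ hψ1 (ν₀.map fun x => (γ * sg) * x) d (C₀ / M)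
    (lam * γ * B + 1) (γ * l) lam (2 * d) (1 / lam) (γ • (K - ContinuousMap.const _ (-a))) hd hvr
    (by positivity) hlam (by positivity) (by positivity) (by rw [← mul_assoc]; exact hl3)
    (by positivity) hsmall hzz
  obtain ⟨b, hb1, hb2⟩ := of_gapK hC hAe hAf hψ1 hd K ν₀ γ sg l (-a) hγ hsg hl0 hvr hg
    (fun ρ' _ hρ z hz s hs => hgap1 ρ' hρ z hz s hs)
  refine ⟨b, fun t => ?_, fun x => ?_, ?_⟩
  · exact (G16.IsSum.bound hψ1.bound hb1 _).trans hl1
  · refine (hW d ψ Cd (2 * l) b hd hCd.le (by positivity) hCd1 hb1 x).trans ?_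
    gcongr
  · have e3 : -a + 4 * d / γ = a := by
      rw [hγd]; field_simp; ring
    rw [e3, haT] at hb2
    exact hb2

end

end Pool.Agent.Run7.h216.SD
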